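import Pool.Agent.H54.WB.TargetsA

/-!
# Small tree-depth gives small path-width and tree-width
-/

set_option autoImplicit false

namespace Pool.Agent.H73.WB

open Pool.Agent.H54.WB

/-- a depth first numbering of a finite set in a forest -/
theorem dfs {V : Type} [Finite V] (anc : V → V → Prop) (h : IsForest anc) :
    ∀ (n : ℕ) (X : Finset V), X.card ≤ n → ∃ f : V → ℕ,
      (∀ u ∈ X, ∀ v ∈ X, f u = f v → u = v) ∧ (∀ u ∈ X, ∀ v ∈ X, anc u v → f u < f v) ∧
        ∀ u ∈ X, ∀ v ∈ X, ∀ w ∈ X, anc u w → f u < f v → f v < f w → anc u v := by
  classical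
  intro n
  induction n with
  | zero =>
    intro X hX
    have hX0 : X = ∅ := Finset.card_eq_zero.1 (Nat.le_zero.1 hX)
    subst hX0
    exact ⟨fun _ => 0, by simp, by simp, by simp⟩
  | succ n ih =>
    intro X hX
    rcases X.eq_empty_or_nonempty with hX0 | hXne
    · subst hX0
      exact ⟨fun _ => 0, by simp, by simp, by simp⟩
    have : IsTrans V anc := ⟨h.trans⟩
    have : Std.Irrefl anc := ⟨h.irrefl⟩
    have wf : WellFounded anc := Finite.wellFounded_of_trans_of_irrefl anc
    obtain ⟨r, hr, hmin⟩ := wf.has_min (X : Set V) (by exact_mod_cast hXne)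
    have hrX : r ∈ X := by exact_mod_cast hr
    have hmin' : ∀ u ∈ X, ¬ anc u r := fun u hu => hmin u (by exact_mod_cast hu)
    have hS : (X.filter fun v => anc r v).card ≤ n := by
      have : (X.filter fun v => anc r v) ⊆ X.erase r := by
        intro v hv
        rw [Finset.mem_filter] at hv
        refine Finset.mem_erase.2 ⟨?_, hv.1⟩
        rintro rfl
        exact h.irrefl _ hv.2
      have h1 := Finset.card_le_card this
      rw [Finset.card_erase_of_mem hrX] at h1
      omega
    have hY : (X.filter fun v => v ≠ r ∧ ¬ anc r v).card ≤ n := by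
      have : (X.filter fun v => v ≠ r ∧ ¬ anc r v) ⊆ X.erase r := by
        intro v hv
        rw [Finset.mem_filter] at hv
        exact Finset.mem_erase.2 ⟨hv.2.1, hv.1⟩
      have h1 := Finset.card_le_card this
      rw [Finset.card_erase_of_mem hrX] at h1
      omega
    obtain ⟨f, f1, f2, f3⟩ := ih _ hS
    obtain ⟨g, g1, g2, g3⟩ := ih _ hY
    simp only [Finset.mem_filter] at f1 f2 f3 g1 g2 g3
    obtain ⟨N, hN⟩ : ∃ N, ∀ v, f v ≤ N := by
      obtain ⟨N, hN⟩ := (Set.finite_range f).bddAbove
      exact ⟨N, fun v => hN ⟨v, rfl⟩⟩
    refine ⟨fun v => if v = r then 0 else if anc r v then 1 + f v else 2 + N + g v, ?_, ?_, ?_⟩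
    · intro u hu v hv huv
      have fu := hN u
      have fv := hN v
      by_cases hur : u = r
      · by_cases hvr : v = r
        · rw [hur, hvr]
        · by_cases hv2 : anc r v
          · simp only [if_pos hur, if_neg hvr, if_pos hv2] at huv
            omega
          · simp only [if_pos hur, if_neg hvr, if_neg hv2] at huv
            omega
      · by_cases hu2 : anc r u
        · by_cases hvr : v = r
          · simp only [if_neg hur, if_pos hu2, if_pos hvr] at huv
            omega
          · by_cases hv2 : anc r v
            · simp only [if_neg hur, if_pos hu2, if_neg hvr, if_pos hv2] at huv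
              exact f1 u ⟨hu, hu2⟩ v ⟨hv, hv2⟩ (by omega)
            · simp only [if_neg hur, if_pos hu2, if_neg hvr, if_neg hv2] at huv
              omega
        · by_cases hvr : v = r
          · simp only [if_neg hur, if_neg hu2, if_pos hvr] at huv
            omega
          · by_cases hv2 : anc r v
            · simp only [if_neg hur, if_neg hu2, if_neg hvr, if_pos hv2] at huv
              omega
            · simp only [if_neg hur, if_neg hu2, if_neg hvr, if_neg hv2] at huv
              exact g1 u ⟨hu, hur, hu2⟩ v ⟨hv, hvr, hv2⟩ (by omega)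
    · intro u hu v hv huv
      have fu := hN u
      have fv := hN v
      have hvr : v ≠ r := by
        rintro rfl
        exact hmin' u hu huv
      by_cases hur : u = r
      · have hv2 : anc r v := hur ▸ huv
        simp only [if_pos hur, if_neg hvr, if_pos hv2]
        omega
      · by_cases hu2 : anc r u
        · have hv2 : anc r v := h.trans _ _ _ hu2 huv
          simp only [if_neg hur, if_pos hu2, if_neg hvr, if_pos hv2]
          have := f2 u ⟨hu, hu2⟩ v ⟨hv, hv2⟩ huv
          omega
        · have hv2 : ¬ anc r v := by
            intro hv2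
            rcases h.chain u r v huv hv2 with h1 | h1 | h1
            · exact hur h1
            · exact hmin' u hu h1
            · exact hu2 h1
          simp only [if_neg hur, if_neg hu2, if_neg hvr, if_neg hv2]
          have := g2 u ⟨hu, hur, hu2⟩ v ⟨hv, hvr, hv2⟩ huv
          omega
    · intro u hu v hv w hw huw huv hvw
      have fu := hN u
      have fv := hN v
      have fw := hN w
      have hwr : w ≠ r := by
        rintro rfl
        exact hmin' u hu huw
      have hvr : v ≠ r := by
        intro hvr
        simp only [if_pos hvr] at huv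
        omega
      by_cases hur : u = r
      · have hw2 : anc r w := hur ▸ huw
        by_cases hv2 : anc r v
        · rw [hur]
          exact hv2
        · simp only [if_neg hvr, if_neg hv2, if_neg hwr, if_pos hw2] at hvw
          omega
      · by_cases hu2 : anc r u
        · have hw2 : anc r w := h.trans _ _ _ hu2 huw
          by_cases hv2 : anc r v
          · simp only [if_neg hvr, if_pos hv2, if_neg hwr, if_pos hw2] at hvw
            simp only [if_neg hvr, if_pos hv2, if_neg hur, if_pos hu2] at huv
            exact f3 u ⟨hu, hu2⟩ v ⟨hv, hv2⟩ w ⟨hw, hw2⟩ huw (by omega) (by omega)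
          · simp only [if_neg hvr, if_neg hv2, if_neg hwr, if_pos hw2] at hvw
            omega
        · have hw2 : ¬ anc r w := by
            intro hw2
            rcases h.chain u r w huw hw2 with h1 | h1 | h1
            · exact hur h1
            · exact hmin' u hu h1
            · exact hu2 h1
          by_cases hv2 : anc r v
          · simp only [if_neg hvr, if_pos hv2, if_neg hur, if_neg hu2] at huv
            omega
          · simp only [if_neg hvr, if_neg hv2, if_neg hwr, if_neg hw2] at hvw
            simp only [if_neg hvr, if_neg hv2, if_neg hur, if_neg hu2] at huv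
            exact g3 u ⟨hu, hur, hu2⟩ v ⟨hv, hvr, hv2⟩ w ⟨hw, hwr, hw2⟩ huw (by omega) (by omega)

theorem pf_DPW : T_DPW := by
  classical
  intro V _ G k hd
  obtain ⟨anc, hE, hk⟩ := hd
  have := Fintype.ofFinite V
  constructor
  · obtain ⟨f, f1, f2, f3⟩ := dfs anc hE.1 _ Finset.univ le_rfl
    refine ⟨fun u v => f u < f v, ⟨⟨fun v => lt_irrefl _, fun u v w => lt_trans, ?_⟩, ?_⟩, ?_, ?_⟩
    · intro u v w _ _
      rcases lt_trichotomy (f u) (f v) with h | h | h
      · exact Or.inr (Or.inl h)
      · exact Or.inl (f1 u (Finset.mem_univ u) v (Finset.mem_univ v) h)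
      · exact Or.inr (Or.inr h)
    · intro u v huv
      rcases hE.2 u v huv with h | h
      · exact Or.inl (f2 u (Finset.mem_univ u) v (Finset.mem_univ v) h)
      · exact Or.inr (f2 v (Finset.mem_univ v) u (Finset.mem_univ u) h)
    · intro u v
      rcases lt_trichotomy (f u) (f v) with h | h | h
      · exact Or.inr (Or.inl h)
      · exact Or.inl (f1 u (Finset.mem_univ u) v (Finset.mem_univ v) h)
      · exact Or.inr (Or.inr h)
    · intro v
      refine (Set.ncard_le_ncard ?_ (Set.toFinite _)).trans (hk v).le
      rintro u ⟨huv, w, hw, hadj⟩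
      show anc u v
      have huw : f u < f w := by
        rcases hw with rfl | hw
        · exact huv
        · exact lt_trans huv hw
      have hanc : anc u w := by
        rcases hE.2 u w hadj with h | h
        · exact h
        · exact absurd (f2 w (Finset.mem_univ w) u (Finset.mem_univ u) h) (by omega)
      rcases hw with rfl | hw
      · exact hanc
      · exact f3 u (Finset.mem_univ u) v (Finset.mem_univ v) w (Finset.mem_univ w) hanc huv hw
  · refine ⟨anc, hE, fun v => (Set.ncard_le_ncard ?_ (Set.toFinite _)).trans (hk v).le⟩
    rintro u ⟨huv, _⟩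
    exact huv

end Pool.Agent.H73.WB
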